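import Mathlib

set_option autoImplicit false

namespace Pool.Agent.H.MP_52d521_co

open Polynomial

/-- the map from the residue field -/
noncomputable def res {A : Type} [CommRing A] (y : A →+* ℂ) :
    letI := RingHom.ker_isPrime y
    (RingHom.ker y).ResidueField →+* ℂ :=
  letI := RingHom.ker_isPrime y
  Ideal.ResidueField.lift (RingHom.ker y) y le_rfl (fun x hx => by
    simpa [Ideal.primeCompl, IsUnit.mem_submonoid_iff] using hx)

lemma fib {A B : Type} [CommRing A] [CommRing B] [Algebra A B] [Algebra.FiniteType A B]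
    (y : A →+* ℂ) [(RingHom.ker y).IsPrime] (M : Ideal ((RingHom.ker y).Fiber B))
    (hM : M.IsMaximal) : ∃ ψ : (RingHom.ker y).Fiber B →+* ℂ, RingHom.ker ψ = M ∧
      ψ.comp (algebraMap (RingHom.ker y).ResidueField _) = res y := by
  let : Algebra (RingHom.ker y).ResidueField ℂ := (res y).toAlgebra
  let := Ideal.Quotient.field M
  have : Module.Finite (RingHom.ker y).ResidueField ((RingHom.ker y).Fiber B ⧸ M) :=
    finite_of_finite_type_of_isJacobsonRing _ _
  let f : ((RingHom.ker y).Fiber B ⧸ M) →ₐ[(RingHom.ker y).ResidueField] ℂ := IsAlgClosed.lift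
  refine ⟨f.toRingHom.comp (Ideal.Quotient.mk M), ?_, ?_⟩
  · rw [← RingHom.comap_ker, (RingHom.injective_iff_ker_eq_bot _).1 f.toRingHom.injective]
    exact Ideal.mk_ker
  · exact RingHom.ext fun x => f.commutes x

lemma comp_inc {A B : Type} [CommRing A] [CommRing B] [Algebra A B]
    (y : A →+* ℂ) [(RingHom.ker y).IsPrime] (ψ : (RingHom.ker y).Fiber B →+* ℂ)
    (h : ψ.comp (algebraMap (RingHom.ker y).ResidueField _) = res y) :
    (ψ.comp (Algebra.TensorProduct.includeRight (R := A)).toRingHom).comp (algebraMap A B) = y := by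
  ext1 a
  have h1 := RingHom.congr_fun h (algebraMap A _ a)
  simp only [res, Ideal.ResidueField.lift_algebraMap, RingHom.comp_apply] at h1
  rw [← h1, ← IsScalarTower.algebraMap_apply]
  simp only [RingHom.comp_apply, AlgHom.toRingHom_eq_coe, RingHom.coe_coe, AlgHom.commutes]

lemma extend {A B : Type} [CommRing A] [CommRing B] [IsDomain B] [Algebra A B]
    [Algebra.FiniteType A B] (hinj : Function.Injective (algebraMap A B))
    (y : A →+* ℂ) (hy : Function.Injective y) : ∃ φ : B →+* ℂ, φ.comp (algebraMap A B) = y := by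
  have := RingHom.ker_isPrime y
  have hk : RingHom.ker y = ⊥ := (RingHom.injective_iff_ker_eq_bot _).1 hy
  let Q := PrimeSpectrum.preimageEquivFiber A B ⟨RingHom.ker y, this⟩ ⟨⟨⊥, Ideal.isPrime_bot⟩, by
    apply PrimeSpectrum.ext
    simp only [PrimeSpectrum.comap_asIdeal, hk]
    exact (RingHom.injective_iff_ker_eq_bot _).1 hinj⟩
  obtain ⟨M, hM, _⟩ := Ideal.exists_le_maximal Q.asIdeal Q.isPrime.ne_top
  obtain ⟨ψ, _, h⟩ := fib y M hM
  exact ⟨_, comp_inc y ψ h⟩

lemma zmt {A B : Type} [CommRing A] [CommRing B] [Algebra A B] [Algebra.FiniteType A B]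
    (y : A →+* ℂ) (hfin : {φ : B →+* ℂ | φ.comp (algebraMap A B) = y}.Finite)
    (φ : B →+* ℂ) (hφ : φ.comp (algebraMap A B) = y) :
    ∃ r, φ r ≠ 0 ∧ IsIntegral A r ∧ ∀ x, ∃ m, IsIntegral A (r ^ m * x) := by
  have := RingHom.ker_isPrime y
  have := RingHom.ker_isPrime φ
  have : IsJacobsonRing ((RingHom.ker y).Fiber B) :=
    isJacobsonRing_of_finiteType (A := (RingHom.ker y).ResidueField)
  have hcl : (closedPoints (PrimeSpectrum ((RingHom.ker y).Fiber B))).Finite := by
    have h1 : ∀ M : PrimeSpectrum ((RingHom.ker y).Fiber B), ∃ ψ : (RingHom.ker y).Fiber B →+* ℂ,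
        M ∈ closedPoints _ → RingHom.ker ψ = M.asIdeal ∧
          ψ.comp (algebraMap (RingHom.ker y).ResidueField _) = res y := by
      intro M
      obtain ⟨M', hM', hle⟩ := Ideal.exists_le_maximal M.asIdeal M.isPrime.ne_top
      obtain ⟨ψ, h1, h2⟩ := fib y M' hM'
      refine ⟨ψ, fun h => ⟨?_, h2⟩⟩
      rw [h1]
      exact (((PrimeSpectrum.isClosed_singleton_iff_isMaximal M).1 h).eq_of_le hM'.ne_top hle).symm
    choose ψ hψ using h1
    apply Set.Finite.of_finite_image (f := fun M =>
      (ψ M).comp (Algebra.TensorProduct.includeRight (R := A)).toRingHom)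
    · apply hfin.subset
      rintro _ ⟨M, hM, rfl⟩
      exact comp_inc y _ (hψ M hM).2
    · intro M hM N hN e
      apply PrimeSpectrum.ext
      rw [← (hψ M hM).1, ← (hψ N hN).1]
      congr 1
      apply Algebra.TensorProduct.ringHom_ext
      · exact (hψ M hM).2.trans (hψ N hN).2.symm
      · exact e
  have := JacobsonSpace.discreteTopology hcl
  have : (RingHom.ker φ).LiesOver (RingHom.ker y) := ⟨by
    rw [← hφ]; rfl⟩
  let Q := PrimeSpectrum.preimageEquivFiber A B ⟨RingHom.ker y, ‹_›⟩ ⟨⟨RingHom.ker φ, ‹_›⟩, by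
    apply PrimeSpectrum.ext
    simp only [PrimeSpectrum.comap_asIdeal, ← hφ]
    rfl⟩
  have hq : Algebra.QuasiFiniteAt (RingHom.ker y).ResidueField Q.asIdeal :=
    Algebra.QuasiFiniteAt.of_isOpen_singleton Q (isOpen_discrete _)
  have : Algebra.QuasiFiniteAt A (RingHom.ker φ) :=
    Algebra.QuasiFiniteAt.of_quasiFiniteAt_residueField (RingHom.ker y) (RingHom.ker φ) Q.asIdeal
      (congrArg (fun t => t.1.asIdeal)
        ((PrimeSpectrum.preimageEquivFiber A B ⟨RingHom.ker y, ‹_›⟩).symm_apply_apply _))
  exact Algebra.zariskisMainProperty_iff.1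
    (Algebra.ZariskisMainProperty.of_finiteType (R := A) (RingHom.ker φ))

lemma avoid {M ι : Type} [AddCommGroup M] (S : Finset ι) (f : ι → M →+ ℂ)
    (h : ∀ i ∈ S, ∃ b, f i b ≠ 0) : ∃ b, ∀ i ∈ S, f i b ≠ 0 := by
  classical
  induction S using Finset.induction_on with
  | empty => exact ⟨0, by simp⟩
  | insert j S _ ih =>
    obtain ⟨b, hb⟩ := ih fun i hi => h i (Finset.mem_insert_of_mem hi)
    obtain ⟨c, hc⟩ := h j (Finset.mem_insert_self _ _)
    have hf : (⋃ i ∈ insert j S, {n : ℕ | f i b + n * f i c = 0}).Finite := by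
      apply Set.Finite.biUnion (Finset.finite_toSet _)
      intro i hi
      apply Set.Subsingleton.finite
      intro n hn m hm
      have h1 : ((n : ℂ) - m) * f i c = 0 := by
        have hn' : f i b + n * f i c = 0 := hn
        have hm' : f i b + m * f i c = 0 := hm
        linear_combination hn' - hm'
      rcases mul_eq_zero.1 h1 with h2 | h2
      · exact_mod_cast sub_eq_zero.1 h2
      · rcases Finset.mem_insert.1 hi with rfl | hi
        · exact absurd h2 hc
        · have hn' : f i b + n * f i c = 0 := hn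
          rw [h2] at hn'
          exact absurd (by simpa using hn') (hb i hi)
    obtain ⟨n, hn⟩ := hf.exists_notMem
    refine ⟨b + n • c, fun i hi e => hn ?_⟩
    simp only [Set.mem_iUnion]
    exact ⟨i, hi, by simpa using e⟩

theorem core {A B : Type} [CommRing A] [IsDomain A] [IsIntegrallyClosed A] [CharZero A]
    [CommRing B] [IsDomain B] [Algebra A B] [Algebra.FiniteType A B]
    (hinj : Function.Injective (algebraMap A B)) (y η : A →+* ℂ) (hη : Function.Injective η)
    (hfin : {φ : B →+* ℂ | φ.comp (algebraMap A B) = y}.Finite) :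
    {φ : B →+* ℂ | φ.comp (algebraMap A B) = y}.encard ≤
      {φ : B →+* ℂ | φ.comp (algebraMap A B) = η}.encard := by
  classical
  have : FaithfulSMul A B := (faithfulSMul_iff_algebraMap_injective A B).2 hinj
  obtain ⟨b, hb⟩ := avoid (M := integralClosure A B) hfin.toFinset.offDiag
    (fun p => (p.1.toAddMonoidHom - p.2.toAddMonoidHom).comp
      (integralClosure A B).val.toRingHom.toAddMonoidHom) (by
      rintro ⟨φ, ψ⟩ hp
      simp only [Finset.mem_offDiag, Set.Finite.mem_toFinset, Set.mem_ofPred_eq] at hp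
      by_contra hc
      push Not at hc
      have hc' : ∀ x, IsIntegral A x → φ x = ψ x := fun x hx => by
        simpa [sub_eq_zero] using hc ⟨x, hx⟩
      obtain ⟨r, h1, h2, h3⟩ := zmt y hfin φ hp.1
      apply hp.2.2
      ext1 x
      obtain ⟨m, hm⟩ := h3 x
      have := hc' _ hm
      rw [map_mul, map_mul, map_pow, map_pow, ← hc' r h2] at this
      exact mul_left_cancel₀ (pow_ne_zero _ h1) this)
  have hbi : IsIntegral A (b : B) := b.2
  have hmon := minpoly.monic hbi
  have hroot : ∀ (z : A →+* ℂ) (φ : B →+* ℂ), φ.comp (algebraMap A B) = z →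
      φ b ∈ ((minpoly A (b : B)).map z).roots.toFinset := by
    intro z φ h
    rw [Multiset.mem_toFinset, mem_roots (hmon.map z).ne_zero, IsRoot.def, eval_map, ← h,
      ← hom_eval₂, ← aeval_def, minpoly.aeval, map_zero]
  have h1 : {φ : B →+* ℂ | φ.comp (algebraMap A B) = y}.encard ≤
      (minpoly A (b : B)).natDegree := by
    have a1 := Set.encard_le_encard_of_injOn (s := {φ : B →+* ℂ | φ.comp (algebraMap A B) = y})
      (t := (((minpoly A (b : B)).map y).roots.toFinset : Set ℂ)) (f := fun φ => φ b)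
      (fun φ h => hroot y φ h) (fun φ h ψ h' e => by
        by_contra hne
        apply hb (φ, ψ) (by simpa using ⟨h, h', hne⟩)
        simpa [sub_eq_zero] using e)
    refine a1.trans ?_
    rw [Set.encard_coe_eq_coe_finsetCard]
    exact_mod_cast (Multiset.toFinset_card_le _).trans ((card_roots' _).trans natDegree_map_le)
  refine h1.trans ?_
  have hsep : ((minpoly A (b : B)).map η).Separable := by
    have := (hmon.irreducible_iff_irreducible_map_fraction_map (K := FractionRing A)).1
      (minpoly.irreducible hbi)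
    have h2 := this.separable.map (f := IsFractionRing.lift (K := FractionRing A) hη)
    have h3 : (IsFractionRing.lift (K := FractionRing A) hη).comp (algebraMap A _) = η :=
      RingHom.ext fun a => by simp
    rwa [map_map, h3] at h2
  have hcard : ((minpoly A (b : B)).map η).roots.toFinset.card = (minpoly A (b : B)).natDegree := by
    rw [Multiset.toFinset_card_of_nodup (nodup_roots hsep), IsAlgClosed.card_roots_eq_natDegree,
      hmon.natDegree_map]
  rw [← hcard, ← Set.encard_coe_eq_coe_finsetCard]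
  refine le_trans (Set.encard_le_encard ?_) (Set.encard_image_le (fun φ : B →+* ℂ => φ b) _)
  intro z hz
  have hz' : (minpoly A (b : B)).eval₂ η z = 0 := by
    rw [Finset.mem_coe, Multiset.mem_toFinset, mem_roots (hmon.map η).ne_zero, IsRoot.def,
      eval_map] at hz
    exact hz
  let θ : Algebra.adjoin A {(b : B)} →+* ℂ :=
    (AdjoinRoot.lift η z hz').comp (minpoly.equivAdjoin hbi).symm.toRingHom
  have hθ : θ.comp (algebraMap A _) = η := by
    ext1 a
    simp [θ]
  have : Algebra.IsIntegral A (Algebra.adjoin A {(b : B)}) :=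
    Algebra.IsIntegral.adjoin (by simpa using hbi)
  have hθi : Function.Injective θ := by
    rw [RingHom.injective_iff_ker_eq_bot]
    apply Ideal.eq_bot_of_comap_eq_bot (R := A)
    rw [RingHom.comap_ker, hθ]
    exact (RingHom.injective_iff_ker_eq_bot _).1 hη
  have : Algebra.FiniteType (Algebra.adjoin A {(b : B)}) B :=
    Algebra.FiniteType.of_restrictScalars_finiteType A _ _
  obtain ⟨φ, hφ⟩ := extend (A := Algebra.adjoin A {(b : B)}) (B := B) Subtype.val_injective θ hθi
  refine ⟨φ, ?_, ?_⟩
  · show φ.comp _ = η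
    rw [← hθ, ← hφ]
    rfl
  · have h3 := RingHom.congr_fun hφ ⟨b, Algebra.self_mem_adjoin_singleton A (b : B)⟩
    refine Eq.trans h3 ?_
    have h4 : (minpoly.equivAdjoin hbi).symm ⟨b, Algebra.self_mem_adjoin_singleton A (b : B)⟩ =
        AdjoinRoot.root _ := by
      rw [AlgEquiv.symm_apply_eq]
      apply Subtype.ext
      simp [minpoly.equivAdjoin]
    simp only [θ, RingHom.comp_apply]
    erw [h4]
    exact AdjoinRoot.lift_root _

end Pool.Agent.H.MP_52d521_co
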