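import Mathlib

set_option autoImplicit false

namespace Pool.Agent.H.MP_52d521_co

open Finset

variable {V : Type} [Fintype V]

/-- no nonzero stress -/
def Ind (G : SimpleGraph V) (p : V → Fin 2 → ℚ) : Prop :=
  ∀ ω : V → V → ℚ, (∀ u v, ω u v = ω v u) → (∀ u v, ¬ G.Adj u v → ω u v = 0) →
    (∀ u k, ∑ v, ω u v * (p u k - p v k) = 0) → ∀ u v, ω u v = 0

/-- symmetric weights supported on edges -/
def Om (G : SimpleGraph V) : Submodule ℚ (V → V → ℚ) where
  carrier := {ω | (∀ u v, ω u v = ω v u) ∧ ∀ u v, ¬ G.Adj u v → ω u v = 0}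
  add_mem' := fun {a b} ha hb => ⟨fun u v => by simp [ha.1 u v, hb.1 u v],
    fun u v h => by simp [ha.2 u v h, hb.2 u v h]⟩
  zero_mem' := ⟨fun _ _ => rfl, fun _ _ _ => rfl⟩
  smul_mem' := fun c a ha => ⟨fun u v => by simp [ha.1 u v], fun u v h => by simp [ha.2 u v h]⟩

/-- the equilibrium map -/
def Tm (G : SimpleGraph V) (p : V → Fin 2 → ℚ) : Om G →ₗ[ℚ] (V → Fin 2 → ℚ) where
  toFun ω u k := ∑ v, ω.1 u v * (p u k - p v k)
  map_add' a b := by ext u k; simp [add_mul, Finset.sum_add_distrib]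
  map_smul' c a := by ext u k; simp [Finset.mul_sum, mul_assoc]

lemma gen {G : SimpleGraph V} {p0 : V → Fin 2 → ℚ} (h : Ind G p0)
    (F : MvPolynomial (V × Fin 2) ℚ) (hF : F ≠ 0) :
    ∃ p, Ind G p ∧ MvPolynomial.eval (fun x : V × Fin 2 => p x.1 x.2) F ≠ 0 := by
  classical
  obtain ⟨x1, hx1⟩ : ∃ x1, MvPolynomial.eval x1 F ≠ 0 := by
    by_contra hc
    push Not at hc
    exact hF (MvPolynomial.funext fun x => by simp [hc x])
  obtain ⟨L, hL⟩ := (Tm G p0).exists_leftInverse_of_injective (by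
    rw [LinearMap.ker_eq_bot']
    intro ω hω
    apply Subtype.ext
    funext u v
    exact h ω.1 ω.2.1 ω.2.2 (fun u k => congrFun (congrFun hω u) k) u v)
  let d : V → Fin 2 → ℚ := fun u k => x1 (u, k) - p0 u k
  let N : Module.End ℚ (Om G) := L ∘ₗ Tm G d
  let g : Polynomial ℚ := MvPolynomial.aeval
    (fun x : V × Fin 2 => Polynomial.C (p0 x.1 x.2) + Polynomial.X * Polynomial.C (d x.1 x.2)) F
  have hg : ∀ t, g.eval t =
      MvPolynomial.eval (fun x : V × Fin 2 => p0 x.1 x.2 + t * d x.1 x.2) F := by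
    intro t
    simp only [g]
    rw [← Polynomial.coe_aeval_eq_eval, ← AlgHom.comp_apply, MvPolynomial.comp_aeval]
    simp [MvPolynomial.aeval_eq_eval, mul_comm t]
  have hg0 : g ≠ 0 := by
    intro e
    have := hg 1
    rw [e] at this
    apply hx1
    simpa [d] using this.symm
  obtain ⟨t, ht⟩ := (((Module.End.finite_hasEigenvalue N).image fun μ => -μ⁻¹).union
    (g.roots.toFinset.finite_toSet)).exists_notMem
  simp only [Set.mem_union, not_or] at ht
  refine ⟨fun u k => p0 u k + t * d u k, ?_, ?_⟩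
  · intro ω h1 h2 h3
    by_contra hc
    let w : Om G := ⟨ω, h1, h2⟩
    have hw : w ≠ 0 := fun e => hc fun u v => congrFun (congrFun (congrArg Subtype.val e) u) v
    have e1 : Tm G p0 w + t • Tm G d w = 0 := by
      ext u k
      have := h3 u k
      simp only [Tm, LinearMap.coe_mk, AddHom.coe_mk, Pi.add_apply, Pi.smul_apply, smul_eq_mul,
        Pi.zero_apply, Finset.mul_sum, ← Finset.sum_add_distrib, w]
      rw [← this]
      exact Finset.sum_congr rfl fun v _ => by ring
    have e2 : w + t • N w = 0 := by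
      have := congrArg L e1
      rw [map_add, map_smul, map_zero, ← LinearMap.comp_apply, hL] at this
      exact this
    have ht0 : t ≠ 0 := by rintro rfl; exact hw (by simpa using e2)
    apply ht.1
    refine ⟨-t⁻¹, Module.End.hasEigenvalue_of_hasEigenvector (x := w) ⟨?_, hw⟩, by simp⟩
    rw [Module.End.mem_eigenspace_iff]
    have : N w = t⁻¹ • (t • N w) := by rw [smul_smul, inv_mul_cancel₀ ht0, one_smul]
    rw [this, eq_neg_of_add_eq_zero_right e2]
    simp
  · rw [← hg]
    intro e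
    exact ht.2 (by simpa [hg0] using e)

/-- delete the edges at `v`, add the pair `a b` if `a ≠ b` -/
def red (G : SimpleGraph V) (v a b : V) : SimpleGraph V where
  Adj x y := (G.Adj x y ∧ x ≠ v ∧ y ≠ v) ∨ (a ≠ b ∧ ((x = a ∧ y = b) ∨ (x = b ∧ y = a)))
  symm := ⟨fun x y h => by
    rcases h with h | h
    · exact Or.inl ⟨h.1.symm, h.2.2, h.2.1⟩
    · exact Or.inr ⟨h.1, by tauto⟩⟩
  loopless := ⟨fun x h => by
    rcases h with h | ⟨h, ⟨rfl, h2⟩ | ⟨rfl, h2⟩⟩
    · exact G.irrefl h.1
    · exact h h2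
    · exact h h2.symm⟩

lemma step0 {G : SimpleGraph V} {v : V} {p : V → Fin 2 → ℚ} (h : Ind (red G v v v) p)
    (hv : ∀ ω : V → ℚ, (∀ y, ¬ G.Adj v y → ω y = 0) → (∀ k, ∑ y, ω y * (p v k - p y k) = 0) →
      ∀ y, ω y = 0) : Ind G p := by
  intro ω h1 h2 h3
  have h4 := hv (ω v) (h2 v) (h3 v)
  refine h ω h1 (fun x y hxy => ?_) h3
  by_cases hx : x = v
  · rw [hx]; exact h4 y
  by_cases hy : y = v
  · rw [hy, h1]; exact h4 x
  exact h2 x y fun e => hxy (Or.inl ⟨e, hx, hy⟩)

lemma step1 {G : SimpleGraph V} {v a : V} (ha : a ≠ v) (hN : ∀ y, G.Adj v y → y = a)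
    {p : V → Fin 2 → ℚ} (h : Ind (red G v v v) p) : ∃ p, Ind G p := by
  classical
  obtain ⟨p, hp, hF⟩ := gen h (MvPolynomial.X (v, 0) - MvPolynomial.X (a, 0)) (by
    intro e
    have := congrArg (MvPolynomial.eval fun x : V × Fin 2 => if x.1 = v then (1 : ℚ) else 0) e
    simp [ha] at this)
  refine ⟨p, step0 hp fun ω h1 h2 => ?_⟩
  have h3 := h2 0
  rw [Finset.sum_eq_single a (fun y _ hy => by rw [h1 y fun e => hy (hN y e), zero_mul])
    (by simp)] at h3
  simp only [map_sub, MvPolynomial.eval_X] at hF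
  intro y
  by_cases hy : y = a
  · rw [hy]; exact (mul_eq_zero.1 h3).resolve_right hF
  · exact h1 y fun e => hy (hN y e)

/-- the area polynomial -/
noncomputable def ar (a b c : V) : MvPolynomial (V × Fin 2) ℚ :=
  (MvPolynomial.X (a, 0) - MvPolynomial.X (c, 0)) * (MvPolynomial.X (b, 1) - MvPolynomial.X (c, 1))
  - (MvPolynomial.X (a, 1) - MvPolynomial.X (c, 1)) *
    (MvPolynomial.X (b, 0) - MvPolynomial.X (c, 0))

omit [Fintype V] in
lemma ar_ne {a b c : V} (hab : a ≠ b) (hac : a ≠ c) (hbc : b ≠ c) : ar a b c ≠ 0 := by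
  classical
  intro e
  have := congrArg (MvPolynomial.eval fun x : V × Fin 2 =>
    if x = (a, 0) ∨ x = (b, 1) then (1 : ℚ) else 0) e
  simp [ar, hab, hab.symm, hac.symm, hbc.symm] at this

lemma step2 {G : SimpleGraph V} {v a b : V} (ha : a ≠ v) (hb : b ≠ v) (hab : a ≠ b)
    (hN : ∀ y, G.Adj v y → y = a ∨ y = b)
    {p : V → Fin 2 → ℚ} (h : Ind (red G v v v) p) : ∃ p, Ind G p := by
  classical
  obtain ⟨p, hp, hF⟩ := gen h _ (ar_ne hab ha hb)
  refine ⟨p, step0 hp fun ω h1 h2 => ?_⟩
  have h3 : ∀ k, ω a * (p v k - p a k) + ω b * (p v k - p b k) = 0 := by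
    intro k
    rw [← h2 k, ← Finset.sum_pair (f := fun y => ω y * (p v k - p y k)) hab]
    apply Finset.sum_subset (Finset.subset_univ _)
    intro y _ hy
    rw [h1 y fun e => hy (by simpa using hN y e), zero_mul]
  simp only [ar, map_sub, map_mul, MvPolynomial.eval_X] at hF
  have h4 : ω a = 0 := (mul_eq_zero.1 (by
    linear_combination (p v 1 - p b 1) * h3 0 - (p v 0 - p b 0) * h3 1)).resolve_right hF
  have h5 : ω b = 0 := (mul_eq_zero.1 (by
    linear_combination (p v 0 - p a 0) * h3 1 - (p v 1 - p a 1) * h3 0)).resolve_right hF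
  intro y
  by_cases hy : G.Adj v y
  · rcases hN y hy with rfl | rfl <;> assumption
  · exact h1 y hy

lemma step3 {G : SimpleGraph V} {v a b c : V} (ha : a ≠ v) (hb : b ≠ v) (hc : c ≠ v)
    (hab : a ≠ b) (hac : a ≠ c) (hbc : b ≠ c) (hN : ∀ y, G.Adj v y → y = a ∨ y = b ∨ y = c)
    (hn : ¬ G.Adj a b) {p : V → Fin 2 → ℚ} (h : Ind (red G v a b) p) : ∃ p, Ind G p := by
  classical
  obtain ⟨p0, hp0, hF⟩ := gen h _ (ar_ne hab hac hbc)
  simp only [ar, map_sub, map_mul, MvPolynomial.eval_X] at hF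
  let p : V → Fin 2 → ℚ := fun x k => if x = v then (p0 a k + p0 b k) / 2 else p0 x k
  have hpv : ∀ k, p v k = (p0 a k + p0 b k) / 2 := fun k => by simp [p]
  have hpx : ∀ x, x ≠ v → ∀ k, p x k = p0 x k := fun x hx k => by simp [p, hx]
  refine ⟨p, fun ω h1 h2 h3 => ?_⟩
  have h4 : ∀ k, ω v a * (p v k - p a k) + (ω v b * (p v k - p b k) + ω v c * (p v k - p c k))
      = 0 := by
    intro k
    rw [← h3 v k, ← Finset.sum_pair (f := fun y => ω v y * (p v k - p y k)) hbc,
      ← Finset.sum_insert (f := fun y => ω v y * (p v k - p y k)) (by simp [hab, hac])]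
    apply Finset.sum_subset (Finset.subset_univ _)
    intro y _ hy
    rw [h2 v y fun e => hy (by simpa using hN y e), zero_mul]
  simp only [hpv, hpx a ha, hpx b hb, hpx c hc] at h4
  have h5 : ω v c = 0 := (mul_eq_zero.1 (by
    linear_combination (p0 b 1 - p0 a 1) * h4 0 - (p0 b 0 - p0 a 0) * h4 1)).resolve_right hF
  have h6 : ω v a - ω v b = 0 := (mul_eq_zero.1 (by
    linear_combination (-2 * (p0 a 1 - p0 c 1)) * h4 0 + 2 * (p0 a 0 - p0 c 0) * h4 1 +
      ((p0 a 1 - p0 c 1) * (p0 a 0 + p0 b 0 - 2 * p0 c 0) -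
        (p0 a 0 - p0 c 0) * (p0 a 1 + p0 b 1 - 2 * p0 c 1)) * h5)).resolve_right hF
  have hvv : ω v v = 0 := h2 v v G.irrefl
  let ω' : V → V → ℚ := fun x y => (if x = v ∨ y = v then 0 else ω x y) +
    ((if x = a ∧ y = b then ω v a / 2 else 0) + (if x = b ∧ y = a then ω v a / 2 else 0))
  have h7 := hp0 ω' (fun x y => by
      simp only [ω', h1 x y, or_comm (a := x = v), and_comm (a := x = a), and_comm (a := x = b)]
      ring)
    (fun x y hxy => by
      have a1 : ¬ (x = a ∧ y = b) := fun e => hxy (Or.inr ⟨hab, Or.inl e⟩)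
      have a2 : ¬ (x = b ∧ y = a) := fun e => hxy (Or.inr ⟨hab, Or.inr e⟩)
      simp only [ω', a1, a2, if_false, add_zero]
      split_ifs with e
      · rfl
      · push Not at e
        exact h2 x y fun e' => hxy (Or.inl ⟨e', e⟩))
    (fun x k => by
      by_cases hx : x = v
      · subst hx
        simp [ω', ha.symm, hb.symm]
      · have a1 : ∑ y, (if x = v ∨ y = v then 0 else ω x y) * (p0 x k - p0 y k) +
            ω x v * (p x k - p v k) = 0 := by
          refine Eq.trans ?_ (h3 x k)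
          rw [← Finset.add_sum_erase _ _ (Finset.mem_univ v),
            ← Finset.add_sum_erase _ _ (Finset.mem_univ v), add_comm]
          simp only [or_true, if_true, zero_mul, zero_add]
          congr 1
          apply Finset.sum_congr rfl
          intro y hy
          have := Finset.ne_of_mem_erase hy
          simp [hx, this, hpx x hx, hpx y this]
        simp only [ω', add_mul, Finset.sum_add_distrib]
        rw [hpx x hx, hpv, h1 x v] at a1
        by_cases e1 : x = a
        · subst e1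
          simp only [true_and, hab, false_and, if_false, zero_mul, Finset.sum_const_zero, ite_mul,
            Finset.sum_ite_eq', Finset.mem_univ, if_true] at a1 ⊢
          linear_combination a1
        · by_cases e2 : x = b
          · subst e2
            simp only [true_and, e1, false_and, if_false, zero_mul, Finset.sum_const_zero, ite_mul,
              Finset.sum_ite_eq', Finset.mem_univ, if_true] at a1 ⊢
            linear_combination a1 + (p0 x k - p0 a k) / 2 * h6
          · have : ω v x = 0 := by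
              by_cases e3 : x = c
              · rw [e3]; exact h5
              · exact h2 v x fun e => by rcases hN x e with e | e | e <;> contradiction
            simp only [e1, e2, false_and, if_false, zero_mul, Finset.sum_const_zero]
            rw [this] at a1
            linear_combination a1)
  have h8 : ω v a = 0 := by
    have := h7 a b
    simp only [ω', ha, hb, hab, or_self, if_false, and_self, if_true, false_and, h2 a b hn] at this
    linarith
  have h9 : ∀ y, ω v y = 0 := by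
    intro y
    by_cases hy : G.Adj v y
    · rcases hN y hy with rfl | rfl | rfl
      · exact h8
      · linarith
      · exact h5
    · exact h2 v y hy
  intro x y
  by_cases hx : x = v
  · rw [hx]; exact h9 y
  by_cases hy : y = v
  · rw [hy, h1]; exact h9 x
  have := h7 x y
  simpa [ω', hx, hy, h8] using this

open Classical in
/-- edges inside `S` -/
noncomputable def Ed (G : SimpleGraph V) (S : Finset V) : Finset (Sym2 V) :=
  univ.filter fun e => e ∈ G.edgeSet ∧ ∀ v ∈ e, v ∈ S

lemma mem_Ed {G : SimpleGraph V} {S : Finset V} {x y : V} :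
    s(x, y) ∈ Ed G S ↔ G.Adj x y ∧ x ∈ S ∧ y ∈ S := by
  simp [Ed]

/-- Laman sparsity -/
def Sparse (G : SimpleGraph V) : Prop :=
  ∀ S : Finset V, 2 ≤ S.card → (Ed G S).card + 3 ≤ 2 * S.card

lemma Ed_sub {G H : SimpleGraph V} {S T : Finset V} {U : Finset (Sym2 V)}
    (h : ∀ x y, G.Adj x y → x ∈ S → y ∈ S → s(x, y) ∈ U ∨ (H.Adj x y ∧ x ∈ T ∧ y ∈ T))
    [DecidableEq (Sym2 V)] : Ed G S ⊆ U ∪ Ed H T := by
  intro e he
  induction e using Sym2.ind with
  | _ x y =>
    rw [mem_Ed] at he
    rw [Finset.mem_union, mem_Ed]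
    exact h x y he.1 he.2.1 he.2.2

lemma Ed_mono {G : SimpleGraph V} {S T : Finset V} (h : S ⊆ T) : Ed G S ⊆ Ed G T := by
  classical
  simpa using Ed_sub (U := ∅) (G := G) (H := G) (S := S) (T := T)
    fun x y h1 h2 h3 => Or.inr ⟨h1, h h2, h h3⟩

lemma Ed_inter [DecidableEq V] {G : SimpleGraph V} (S T : Finset V) :
    Ed G S ∩ Ed G T = Ed G (S ∩ T) := by
  ext e
  induction e using Sym2.ind with
  | _ x y => simp only [Finset.mem_inter, mem_Ed]; tauto

lemma Ed_small {G : SimpleGraph V} {S : Finset V} (h : ¬ 2 ≤ S.card) : Ed G S = ∅ := by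
  ext e
  induction e using Sym2.ind with
  | _ x y =>
    simp only [mem_Ed, Finset.notMem_empty, iff_false]
    rintro ⟨h1, h2, h3⟩
    exact h (Finset.one_lt_card.2 ⟨x, h2, y, h3, h1.ne⟩)

lemma free {G : SimpleGraph V} (hG : Sparse G) {v a b c : V} (ha : G.Adj v a) (hb : G.Adj v b)
    (hc : G.Adj v c) (hab : a ≠ b) (hac : a ≠ c) (hbc : b ≠ c) (A B C : Finset V)
    (hA : v ∉ A ∧ a ∈ A ∧ b ∈ A ∧ 2 * A.card ≤ (Ed G A).card + 3)
    (hB : v ∉ B ∧ b ∈ B ∧ c ∈ B ∧ 2 * B.card ≤ (Ed G B).card + 3)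
    (hC : v ∉ C ∧ a ∈ C ∧ c ∈ C ∧ 2 * C.card ≤ (Ed G C).card + 3) : False := by
  classical
  have key : ∀ T : Finset V, v ∉ T → a ∈ T → b ∈ T → c ∈ T →
      (Ed G T).card + 4 ≤ 2 * T.card := by
    intro T h0 h1 h2 h3
    have a1 := hG (insert v T) (Finset.one_lt_card.2 ⟨a, by simp [h1], b, by simp [h2], hab⟩)
    rw [Finset.card_insert_of_notMem h0] at a1
    have a2 : insert s(v, a) (insert s(v, b) (insert s(v, c) (Ed G T))) ⊆ Ed G (insert v T) := by
      simp only [Finset.insert_subset_iff, mem_Ed, Finset.mem_insert]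
      exact ⟨⟨ha, by simp, Or.inr h1⟩, ⟨hb, by simp, Or.inr h2⟩, ⟨hc, by simp, Or.inr h3⟩,
        Ed_mono (Finset.subset_insert _ _)⟩
    have a3 := Finset.card_le_card a2
    rw [Finset.card_insert_of_notMem (by simp [mem_Ed, h0, hab, hac, ha.ne']),
      Finset.card_insert_of_notMem (by simp [mem_Ed, h0, hbc, hb.ne']),
      Finset.card_insert_of_notMem (by simp [mem_Ed, h0])] at a3
    omega
  have un : ∀ S T : Finset V, (Ed G S).card + (Ed G T).card ≤
      (Ed G (S ∪ T)).card + (Ed G (S ∩ T)).card := by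
    intro S T
    rw [← Finset.card_union_add_card_inter, Ed_inter]
    exact Nat.add_le_add_right (Finset.card_le_card (Finset.union_subset
      (Ed_mono Finset.subset_union_left) (Ed_mono Finset.subset_union_right))) _
  have two : ∀ S T : Finset V, v ∉ S ∪ T → a ∈ S ∪ T → b ∈ S ∪ T → c ∈ S ∪ T →
      2 * S.card ≤ (Ed G S).card + 3 → 2 * T.card ≤ (Ed G T).card + 3 → ¬ 2 ≤ (S ∩ T).card := by
    intro S T h0 h1 h2 h3 h4 h5 h6
    have := key _ h0 h1 h2 h3
    have := un S T
    have := hG _ h6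
    have := Finset.card_union_add_card_inter S T
    omega
  have t1 := two A B (by simp [hA.1, hB.1]) (by simp [hA.2.1]) (by simp [hA.2.2.1])
    (by simp [hB.2.2.1]) hA.2.2.2 hB.2.2.2
  have t2 := two A C (by simp [hA.1, hC.1]) (by simp [hA.2.1]) (by simp [hA.2.2.1])
    (by simp [hC.2.2.1]) hA.2.2.2 hC.2.2.2
  have t3 := two B C (by simp [hB.1, hC.1]) (by simp [hC.2.1]) (by simp [hB.2.1])
    (by simp [hB.2.2.1]) hB.2.2.2 hC.2.2.2
  have k := key (A ∪ B ∪ C) (by simp [hA.1, hB.1, hC.1]) (by simp [hA.2.1]) (by simp [hA.2.2.1])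
    (by simp [hB.2.2.1])
  have c1 := Finset.card_union_add_card_inter A B
  have c2 := Finset.card_union_add_card_inter (A ∪ B) C
  have c3 : 0 < (A ∩ B).card := Finset.card_pos.2 ⟨b, by simp [hA.2.2.1, hB.2.1]⟩
  have c4 : 1 < ((A ∪ B) ∩ C).card := Finset.one_lt_card.2
    ⟨a, by simp [hA.2.1, hC.2.1], c, by simp [hB.2.2.1, hC.2.2.1], hac⟩
  have d1 := Finset.card_union_add_card_inter (Ed G A) (Ed G B)
  have d2 := Finset.card_union_add_card_inter (Ed G A ∪ Ed G B) (Ed G C)
  rw [Ed_inter, Ed_small t1] at d1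
  rw [Finset.union_inter_distrib_right, Ed_inter, Ed_inter, Ed_small t2, Ed_small t3] at d2
  have d3 : (Ed G A ∪ Ed G B ∪ Ed G C).card ≤ (Ed G (A ∪ B ∪ C)).card :=
    Finset.card_le_card (Finset.union_subset (Finset.union_subset
      (Ed_mono (Finset.subset_union_left.trans Finset.subset_union_left))
      (Ed_mono (Finset.subset_union_right.trans Finset.subset_union_left)))
      (Ed_mono Finset.subset_union_right))
  simp only [Finset.union_empty, Finset.card_empty] at d1 d2
  have := hA.2.2.2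
  have := hB.2.2.2
  have := hC.2.2.2
  omega

theorem laman (n : ℕ) : ∀ (G : SimpleGraph V) (W : Finset V), W.card ≤ n →
    (∀ x y, G.Adj x y → x ∈ W) → Sparse G → ∃ p, Ind G p := by
  classical
  induction n using Nat.strong_induction_on with
  | _ n ih =>
  intro G W hW hsup hG
  by_cases hE : ∀ x y, ¬ G.Adj x y
  · exact ⟨fun _ _ => 0, fun ω _ h _ u v => h u v (hE u v)⟩
  push Not at hE
  obtain ⟨x0, y0, h0⟩ := hE
  obtain ⟨v, hv1, hv3⟩ : ∃ v, 0 < G.degree v ∧ G.degree v ≤ 3 := by
    by_contra hc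
    push Not at hc
    let U := univ.filter fun x => 0 < G.degree x
    have hU : ∀ x y, G.Adj x y → x ∈ U := fun x y h => by
      simpa [U] using (G.degree_pos_iff_exists_adj x).2 ⟨y, h⟩
    have a1 := hG U (Finset.one_lt_card.2 ⟨x0, hU _ _ h0, y0, hU _ _ h0.symm, h0.ne⟩)
    have a2 : G.edgeFinset ⊆ Ed G U := by
      intro e he
      induction e using Sym2.ind with
      | _ x y =>
        have : G.Adj x y := by simpa using he
        exact mem_Ed.2 ⟨this, hU _ _ this, hU _ _ this.symm⟩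
    have a3 := Finset.card_le_card a2
    have a4 := G.sum_degrees_eq_twice_card_edges
    have a5 : ∑ _x ∈ U, 4 ≤ ∑ x, G.degree x :=
      (Finset.sum_le_sum fun x hx => hc x (by simpa [U] using hx)).trans
        (Finset.sum_le_sum_of_subset (Finset.subset_univ _))
    simp only [Finset.sum_const, smul_eq_mul] at a5
    omega
  obtain ⟨w, hw⟩ := (G.degree_pos_iff_exists_adj v).1 hv1
  have hce := Finset.card_erase_add_one (hsup v w hw)
  have IH : ∀ a b, (a ≠ b → G.Adj v a ∧ G.Adj v b) → Sparse (red G v a b) →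
      ∃ p, Ind (red G v a b) p := by
    intro a b hab
    refine ih (n - 1) (by omega) _ (W.erase v) (by omega) ?_
    rintro x y (h | ⟨h, ⟨rfl, rfl⟩ | ⟨rfl, rfl⟩⟩)
    · exact Finset.mem_erase.2 ⟨h.2.1, hsup x y h.1⟩
    · exact Finset.mem_erase.2 ⟨(hab h).1.ne', hsup _ _ (hab h).1.symm⟩
    · exact Finset.mem_erase.2 ⟨(hab h).2.ne', hsup _ _ (hab h).2.symm⟩
  obtain ⟨p0, hp0⟩ := IH v v (fun h => absurd rfl h) (fun S hS => by
    refine le_trans ?_ (hG S hS)
    have := Finset.card_le_card (Ed_sub (U := ∅) (G := red G v v v) (H := G) (S := S) (T := S)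
      fun x y h1 h2 h3 => Or.inr ⟨(h1.resolve_right fun e => e.1 rfl).1, h2, h3⟩)
    simpa using this)
  rw [← SimpleGraph.card_neighborFinset_eq_degree] at hv1 hv3
  have hmem : ∀ y, G.Adj v y ↔ y ∈ G.neighborFinset v := fun y => by simp
  obtain h | h | h : (G.neighborFinset v).card = 1 ∨ (G.neighborFinset v).card = 2 ∨
    (G.neighborFinset v).card = 3 := by omega
  · obtain ⟨a, e⟩ := Finset.card_eq_one.1 h
    rw [e] at hmem
    exact step1 ((hmem a).2 (by simp)).ne' (fun y hy => by simpa using (hmem y).1 hy) hp0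
  · obtain ⟨a, b, hab, e⟩ := Finset.card_eq_two.1 h
    rw [e] at hmem
    exact step2 ((hmem a).2 (by simp)).ne' ((hmem b).2 (by simp)).ne' hab
      (fun y hy => by simpa using (hmem y).1 hy) hp0
  · obtain ⟨a, b, c, hab, hac, hbc, e⟩ := Finset.card_eq_three.1 h
    rw [e] at hmem
    have ha := (hmem a).2 (by simp)
    have hb := (hmem b).2 (by simp)
    have hc := (hmem c).2 (by simp)
    have hN : ∀ y, G.Adj v y → y = a ∨ y = b ∨ y = c := fun y hy => by simpa using (hmem y).1 hy
    have main : ∀ a b c, G.Adj v a → G.Adj v b → G.Adj v c → a ≠ b → a ≠ c → b ≠ c →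
        (∀ y, G.Adj v y → y = a ∨ y = b ∨ y = c) →
        (¬ ∃ A : Finset V, v ∉ A ∧ a ∈ A ∧ b ∈ A ∧ 2 * A.card ≤ (Ed G A).card + 3) →
        ∃ p, Ind G p := by
      intro a b c ha hb hc hab hac hbc hN hno
      push Not at hno
      obtain ⟨p, hp⟩ := IH a b (fun _ => ⟨ha, hb⟩) (fun S hS => by
        by_cases hin : a ∈ S ∧ b ∈ S
        · have a1 := hno (S.erase v) (by simp) (Finset.mem_erase.2 ⟨ha.ne', hin.1⟩)
            (Finset.mem_erase.2 ⟨hb.ne', hin.2⟩)
          have a2 := Finset.card_le_card (Ed_sub (U := {s(a, b)}) (G := red G v a b) (H := G)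
            (S := S) (T := S.erase v) fun x y h1 h2 h3 => by
              rcases h1 with h | ⟨_, ⟨rfl, rfl⟩ | ⟨rfl, rfl⟩⟩
              · exact Or.inr ⟨h.1, Finset.mem_erase.2 ⟨h.2.1, h2⟩, Finset.mem_erase.2 ⟨h.2.2, h3⟩⟩
              · left; simp
              · left; simp)
          have a3 := Finset.card_union_le {s(a, b)} (Ed G (S.erase v))
          have a4 := Finset.card_erase_le (s := S) (a := v)
          simp only [Finset.card_singleton] at a3
          omega
        · refine le_trans ?_ (hG S hS)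
          have := Finset.card_le_card (Ed_sub (U := ∅) (G := red G v a b) (H := G) (S := S) (T := S)
            fun x y h1 h2 h3 => by
              rcases h1 with h | ⟨_, ⟨rfl, rfl⟩ | ⟨rfl, rfl⟩⟩
              · exact Or.inr ⟨h.1, h2, h3⟩
              · exact absurd ⟨h2, h3⟩ hin
              · exact absurd ⟨h3, h2⟩ hin)
          simpa using this)
      refine step3 ha.ne' hb.ne' hc.ne' hab hac hbc hN (fun hadj => ?_) hp
      have a1 := hno {a, b} (by simp [ha.ne, hb.ne]) (by simp) (by simp)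
      have a2 : 0 < (Ed G {a, b}).card := Finset.card_pos.2 ⟨s(a, b), mem_Ed.2 ⟨hadj, by simp⟩⟩
      rw [Finset.card_pair hab] at a1
      omega
    by_contra hcon
    obtain ⟨A, hA⟩ := not_not.1 fun h => hcon (main a b c ha hb hc hab hac hbc hN h)
    obtain ⟨B, hB⟩ := not_not.1 fun h => hcon (main b c a hb hc ha hbc hab.symm hac.symm
      (fun y hy => by have := hN y hy; tauto) h)
    obtain ⟨C, hC⟩ := not_not.1 fun h => hcon (main a c b ha hc hb hac hab hbc.symm
      (fun y hy => by have := hN y hy; tauto) h)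
    exact free hG ha hb hc hab hac hbc A B C hA hB hC

end Pool.Agent.H.MP_52d521_co
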