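import Mathlib
import Pool.Agent.H.MP_52d521_co.A
import Pool.Agent.H.MP_52d521_co.B

set_option autoImplicit false

namespace Pool.Agent.H.MP_52d521_co

open Finset MvPolynomial

variable {V : Type}

/-- squared distance polynomial -/
noncomputable def D (u v : V) : MvPolynomial (V × Fin 2) ℚ := ∑ k : Fin 2, (X (u, k) - X (v, k)) ^ 2

lemma D_symm (u v : V) : D u v = D v u := Finset.sum_congr rfl fun k _ => by ring

/-- squared distance polynomial of an unordered pair -/
noncomputable def Dl : Sym2 V → MvPolynomial (V × Fin 2) ℚ := Sym2.lift ⟨D, D_symm⟩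

lemma chain {σ τ : Type} [Fintype σ] (f : σ → MvPolynomial τ ℚ) (i : τ) (P : MvPolynomial σ ℚ) :
    pderiv i (aeval f P) = ∑ e, aeval f (pderiv e P) * pderiv i (f e) := by
  classical
  induction P using MvPolynomial.induction_on with
  | C a => simp
  | add p q hp hq => simp only [map_add, hp, hq, add_mul, Finset.sum_add_distrib]
  | mul_X p e hp =>
    simp only [map_mul, aeval_X, Derivation.leibniz, hp, smul_eq_mul, map_add, add_mul,
      Finset.sum_add_distrib, Finset.mul_sum, pderiv_X, Pi.single_apply]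
    congr 1
    · rw [Finset.sum_eq_single e (fun b _ hb => by simp [hb.symm]) (by simp)]
      simp
    · exact Finset.sum_congr rfl fun b _ => by ring

lemma indep_of {σ R : Type} [CommRing R] [Algebra ℚ R] (f : σ → R) [Nontrivial R]
    (h : ∀ P : MvPolynomial σ ℚ, aeval f P = 0 → ∀ e, aeval f (pderiv e P) = 0) :
    Function.Injective (aeval (R := ℚ) f) := by
  classical
  have h0 : ∀ P : MvPolynomial σ ℚ, P.totalDegree = 0 → aeval f P = 0 → P = 0 := by
    intro P hP e
    rw [totalDegree_eq_zero_iff_eq_C.1 hP] at e ⊢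
    rw [aeval_C, map_eq_zero_iff _ (algebraMap ℚ R).injective] at e
    rw [e, C_0]
  have key : ∀ (n : ℕ) (P : MvPolynomial σ ℚ), P.totalDegree ≤ n → aeval f P = 0 → P = 0 := by
    intro n
    induction n with
    | zero => exact fun P hP => h0 P (by omega)
    | succ n ih =>
      intro P hP e
      have h1 : ∀ i, pderiv i P = 0 := by
        intro i
        refine ih _ ?_ (h P e i)
        apply Finset.sup_le
        intro m hm
        rw [mem_support_iff, coeff_pderiv] at hm
        have := le_totalDegree (mem_support_iff.2 (left_ne_zero_of_mul hm))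
        rw [Finsupp.sum_add_index' (fun _ => rfl) (fun _ _ _ => rfl), Finsupp.sum_single_index rfl]
          at this
        omega
      apply h0 P _ e
      rw [totalDegree_eq_zero_iff]
      intro m hm i
      by_contra hi
      have h2 := congrArg (coeff (m - Finsupp.single i 1)) (h1 i)
      rw [coeff_pderiv, tsub_add_cancel_of_le (by
        rw [Finsupp.single_le_iff]; omega), coeff_zero] at h2
      rcases mul_eq_zero.1 h2 with h3 | h3
      · exact mem_support_iff.1 hm h3
      · exact absurd h3 (by positivity)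
  exact (injective_iff_map_eq_zero _).2 fun P => key _ P le_rfl

lemma pd_D [DecidableEq V] (x y u : V) (k : Fin 2) : pderiv (u, k) (D x y) =
    ((if x = u then 1 else 0) - (if y = u then 1 else 0)) * (2 * (X (x, k) - X (y, k))) := by
  unfold D
  rw [Fin.sum_univ_two]
  fin_cases k <;> simp [Derivation.leibniz_pow, pderiv_X, Pi.single_apply] <;>
    split_ifs <;> ring

theorem indep [Fintype V] (G : SimpleGraph V) (hG : Sparse G) :
    Function.Injective (aeval (R := ℚ) fun e : G.edgeSet => Dl e.1) := by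
  classical
  obtain ⟨p0, hp0⟩ := laman _ G univ le_rfl (fun _ _ _ => mem_univ _) hG
  apply indep_of
  intro P hP e0
  let c : Sym2 V → MvPolynomial (V × Fin 2) ℚ := fun e =>
    if h : e ∈ G.edgeSet then aeval (fun e : G.edgeSet => Dl e.1) (pderiv ⟨e, h⟩ P) else 0
  have hc : ∀ e : G.edgeSet, c e = aeval (fun e : G.edgeSet => Dl e.1) (pderiv e P) :=
    fun e => dif_pos e.2
  have h1 : ∀ u k, ∑ w, c s(u, w) * (X (u, k) - X (w, k)) = 0 := by
    intro u k
    have a1 := chain (fun e : G.edgeSet => Dl e.1) (u, k) P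
    rw [hP, map_zero] at a1
    simp only [← hc] at a1
    rw [← Finset.sum_subtype (univ.filter fun e => e ∈ G.edgeSet) (p := fun e => e ∈ G.edgeSet)
      (by simp) (fun e => c e * pderiv (u, k) (Dl e)),
      Finset.sum_subset (Finset.filter_subset _ _) (fun e _ he => by
        have : c e = 0 := dif_neg (by simpa using he)
        rw [this, zero_mul]),
      ← Finset.sum_of_injOn (s := univ) (f := fun w => 2 * (c s(u, w) * (X (u, k) - X (w, k))))
        (fun w => s(u, w)) (fun a _ b _ h => Sym2.congr_right.1 h) (fun _ _ => by simp)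
        (fun e _ he => by
          induction e using Sym2.ind with
          | _ x y =>
            have hx : x ≠ u := by rintro rfl; exact he ⟨y, by simp, rfl⟩
            have hy : y ≠ u := by rintro rfl; exact he ⟨x, by simp, Sym2.eq_swap⟩
            simp [Dl, pd_D, hx, hy])
        (fun w _ => by
          by_cases hw : w = u
          · subst hw; simp [Dl, pd_D]
          · simp only [Dl, Sym2.lift_mk, pd_D, if_true, hw, if_false]; ring),
      ← Finset.mul_sum] at a1
    exact (mul_eq_zero.1 a1.symm).resolve_left two_ne_zero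
  rw [← hc]
  by_contra hne
  obtain ⟨p, hp, hF⟩ := gen hp0 _ hne
  have := hp (fun u w => eval (fun x : V × Fin 2 => p x.1 x.2) (c s(u, w)))
    (fun u w => by rw [Sym2.eq_swap])
    (fun u w h => by
      have : c s(u, w) = 0 := dif_neg h
      rw [this, map_zero])
    (fun u k => by simpa using congrArg (eval fun x : V × Fin 2 => p x.1 x.2) (h1 u k))
  obtain ⟨e0, he0⟩ := e0
  induction e0 using Sym2.ind with
  | _ x y => exact hF (this x y)

lemma rank1 (h : V → V → ℂ) (hs : ∀ u v, h u v = h v u)
    (h2 : ∀ u u' v v', h u v * h u' v' - h u v' * h u' v = 0) :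
    ∃ x : V → ℂ, ∀ u v, h u v = x u * x v := by
  by_cases ha : ∃ a, h a a ≠ 0
  · obtain ⟨a, ha⟩ := ha
    obtain ⟨s, hs2⟩ := IsAlgClosed.exists_pow_nat_eq (h a a) two_pos
    have hs0 : s ≠ 0 := by rintro rfl; exact ha (by simpa using hs2.symm)
    refine ⟨fun u => h u a / s, fun u v => ?_⟩
    field_simp
    rw [hs2, hs v a]
    linear_combination h2 u a v a
  · push Not at ha
    refine ⟨fun _ => 0, fun u v => ?_⟩
    have := h2 u v u v
    rw [ha u, hs v u] at this
    simpa using this

lemma rank2 (g : V → V → ℂ) (hs : ∀ u v, g u v = g v u)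
    (h3 : ∀ a b c d e f, g a d * (g b e * g c f - g b f * g c e) -
      g a e * (g b d * g c f - g b f * g c d) + g a f * (g b d * g c e - g b e * g c d) = 0) :
    ∃ x y : V → ℂ, ∀ u v, g u v = x u * x v + y u * y v := by
  by_cases ha : ∃ a, g a a ≠ 0
  · obtain ⟨a, ha⟩ := ha
    obtain ⟨x, hx⟩ := rank1 (fun u v => g u a * g a v / g a a)
      (fun u v => by rw [hs u a, hs a v, mul_comm]) (fun u u' v v' => by ring)
    obtain ⟨y, hy⟩ := rank1 (fun u v => g u v - g u a * g a v / g a a)
      (fun u v => by rw [hs u a, hs a v, mul_comm, hs u v]) (fun u u' v v' => by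
        field_simp
        linear_combination g a a * h3 a u u' a v v')
    exact ⟨x, y, fun u v => by rw [← hx, ← hy]; ring⟩
  · push Not at ha
    by_cases hb : ∃ a b, g a b ≠ 0
    · obtain ⟨a, b, hb⟩ := hb
      refine ⟨fun u => g u a / g a b + g u b / 2, fun u => Complex.I * (g u a / g a b - g u b / 2),
        fun u v => ?_⟩
      have := h3 a b u a b v
      rw [ha a, ha b, hs b a, hs a v, hs b v] at this
      have e : g u v = g u a / g a b * g v b + g u b * (g v a / g a b) := by
        field_simp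
        apply mul_left_cancel₀ hb
        linear_combination -this
      rw [e]
      linear_combination (-(g u a / g a b - g u b / 2) * (g v a / g a b - g v b / 2)) *
        Complex.I_mul_I
    · push Not at hb
      exact ⟨fun _ => 0, fun _ => 0, fun u v => by simp [hb]⟩

/-- the coordinate ring of the Cayley-Menger variety -/
noncomputable abbrev Bs (V : Type) : Subalgebra ℚ (MvPolynomial (V × Fin 2) ℚ) :=
  Algebra.adjoin ℚ (Set.range fun x : V × V => D x.1 x.2)

/-- squared distance as an element of the coordinate ring -/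
noncomputable def dd (u v : V) : Bs V := ⟨D u v, Algebra.subset_adjoin ⟨(u, v), rfl⟩⟩

lemma hom_ext {φ ψ : Bs V →+* ℂ} (h : ∀ u v, φ (dd u v) = ψ (dd u v)) : φ = ψ := by
  have : φ.toRatAlgHom = ψ.toRatAlgHom := AlgHom.ext_of_eq_adjoin rfl (by
    rintro _ ⟨x, rfl⟩
    exact h x.1 x.2)
  exact RingHom.ext fun x => AlgHom.congr_fun this x

/-- evaluation at a realisation -/
noncomputable def ev (r : V → Fin 2 → ℂ) : Bs V →+* ℂ :=
  ((aeval fun x : V × Fin 2 => r x.1 x.2).comp (Bs V).val).toRingHom

lemma ev_dd (r : V → Fin 2 → ℂ) (u v : V) :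
    ev r (dd u v) = ∑ k : Fin 2, (r u k - r v k) ^ 2 := by
  simp [ev, dd, D]

lemma real (φ : Bs V →+* ℂ) : ∃ r, φ = ev r := by
  rcases isEmpty_or_nonempty V with hV | ⟨⟨o⟩⟩
  · exact ⟨fun _ _ => 0, hom_ext fun u => hV.elim u⟩
  let Gb : V → V → Bs V := fun u v => dd o u + dd o v - dd u v
  have hd : ∀ u v : V, dd u v = dd v u := fun u v => Subtype.ext (D_symm u v)
  obtain ⟨x, y, h⟩ := rank2 (fun u v => φ (Gb u v) / 2)
    (fun u v => by simp only [Gb, hd u v, add_comm]) (fun a b c d e f => by
      have : Gb a d * (Gb b e * Gb c f - Gb b f * Gb c e) -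
        Gb a e * (Gb b d * Gb c f - Gb b f * Gb c d) +
        Gb a f * (Gb b d * Gb c e - Gb b e * Gb c d) = 0 := by
        apply Subtype.ext
        have hv : ∀ u v, (Gb u v).1 = 2 * ((X (u, 0) - X (o, 0)) * (X (v, 0) - X (o, 0)) +
            (X (u, 1) - X (o, 1)) * (X (v, 1) - X (o, 1))) := by
          intro u v
          simp only [Gb, dd, D, Fin.sum_univ_two, AddMemClass.mk_add_mk, AddSubgroupClass.coe_sub]
          ring
        simp only [Subalgebra.coe_add, Subalgebra.coe_sub, Subalgebra.coe_mul, hv,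
          Subalgebra.coe_zero]
        generalize (X (o, 0) : MvPolynomial (V × Fin 2) ℚ) = o0
        generalize (X (o, 1) : MvPolynomial (V × Fin 2) ℚ) = o1
        generalize X (a, 0) - o0 = a0, X (b, 0) - o0 = b0, X (c, 0) - o0 = c0,
          X (d, 0) - o0 = d0, X (e, 0) - o0 = e0, X (f, 0) - o0 = f0
        generalize X (a, 1) - o1 = a1, X (b, 1) - o1 = b1, X (c, 1) - o1 = c1,
          X (d, 1) - o1 = d1, X (e, 1) - o1 = e1, X (f, 1) - o1 = f1
        ring
      have h2 := congrArg φ this
      simp only [map_add, map_sub, map_mul, map_zero] at h2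
      linear_combination h2 / 8)
  refine ⟨fun u => ![x u, y u], hom_ext fun u v => ?_⟩
  have z : ∀ u : V, dd u u = 0 := fun u => Subtype.ext (by simp [dd, D])
  have h1 := h u u
  have h2 := h v v
  have h3 := h u v
  simp only [Gb, z, map_add, map_sub, map_zero] at h1 h2 h3
  rw [ev_dd, Fin.sum_univ_two]
  simp only [Matrix.cons_val_zero, Matrix.cons_val_one]
  linear_combination h1 + h2 - 2 * h3

/-- edge lengths -/
noncomputable def de (G : SimpleGraph V) (e : G.edgeSet) : Bs V :=
  ⟨Dl e.1, by
    obtain ⟨e, he⟩ := e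
    induction e using Sym2.ind with
    | _ x y => exact (dd x y).2⟩

lemma classes (G : SimpleGraph V) (q : V → Fin 2 → ℂ) :
    {K : Set (V → Fin 2 → ℂ) | ∃ r : V → Fin 2 → ℂ,
      (∀ u v, G.Adj u v →
        ∑ k : Fin 2, (r u k - r v k) ^ 2 = ∑ k : Fin 2, (q u k - q v k) ^ 2) ∧
      K = {s | ∀ u v,
        ∑ k : Fin 2, (s u k - s v k) ^ 2 = ∑ k : Fin 2, (r u k - r v k) ^ 2}}.encard =
    {φ : Bs V →+* ℂ | φ.comp (aeval (R := ℚ) (de G)).toRingHom =
      (ev q).comp (aeval (R := ℚ) (de G)).toRingHom}.encard := by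
  have hinj : Function.Injective fun φ : Bs V →+* ℂ =>
      {s : V → Fin 2 → ℂ | ∀ u v, ∑ k : Fin 2, (s u k - s v k) ^ 2 = φ (dd u v)} := by
    intro φ ψ h
    obtain ⟨r, rfl⟩ := real φ
    have : r ∈ {s : V → Fin 2 → ℂ | ∀ u v, ∑ k : Fin 2, (s u k - s v k) ^ 2 = ψ (dd u v)} := by
      beta_reduce at h
      rw [← h]
      exact fun u v => (ev_dd r u v).symm
    exact hom_ext fun u v => (ev_dd r u v).trans (this u v)
  rw [← hinj.encard_image]
  congr 1
  have key : ∀ r, (∀ u v, G.Adj u v →
      ∑ k : Fin 2, (r u k - r v k) ^ 2 = ∑ k : Fin 2, (q u k - q v k) ^ 2) ↔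
      (ev r).comp (aeval (R := ℚ) (de G)).toRingHom =
        (ev q).comp (aeval (R := ℚ) (de G)).toRingHom := by
    intro r
    constructor
    · intro h
      apply MvPolynomial.ringHom_ext
      · intro a
        simp [eq_ratCast]
      · rintro ⟨e, he⟩
        induction e using Sym2.ind with
        | _ x y =>
          simp only [AlgHom.toRingHom_eq_coe, RingHom.comp_apply, RingHom.coe_coe, aeval_X]
          exact ((ev_dd r x y).trans (h x y he)).trans (ev_dd q x y).symm
    · intro h u v huv
      have := RingHom.congr_fun h (X ⟨s(u, v), huv⟩)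
      simp only [AlgHom.toRingHom_eq_coe, RingHom.comp_apply, RingHom.coe_coe, aeval_X] at this
      exact ((ev_dd r u v).symm.trans this).trans (ev_dd q u v)
  ext K
  constructor
  · rintro ⟨r, h1, rfl⟩
    exact ⟨ev r, (key r).1 h1, by simp only [ev_dd]⟩
  · rintro ⟨φ, h1, rfl⟩
    obtain ⟨r, rfl⟩ := real φ
    exact ⟨r, (key r).2 h1, by simp only [ev_dd]⟩

theorem main [Fintype V] (G : SimpleGraph V) (hG : Sparse G) (p q : V → Fin 2 → ℂ)
    (hp : AlgebraicIndependent ℚ (fun x : V × Fin 2 => p x.1 x.2))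
    (hfin : {φ : Bs V →+* ℂ | φ.comp (aeval (R := ℚ) (de G)).toRingHom =
      (ev q).comp (aeval (R := ℚ) (de G)).toRingHom}.Finite) :
    {φ : Bs V →+* ℂ | φ.comp (aeval (R := ℚ) (de G)).toRingHom =
      (ev q).comp (aeval (R := ℚ) (de G)).toRingHom}.encard ≤
    {φ : Bs V →+* ℂ | φ.comp (aeval (R := ℚ) (de G)).toRingHom =
      (ev p).comp (aeval (R := ℚ) (de G)).toRingHom}.encard := by
  classical
  let : Algebra (MvPolynomial G.edgeSet ℚ) (Bs V) := (aeval (R := ℚ) (de G)).toRingHom.toAlgebra
  have : IsScalarTower ℚ (MvPolynomial G.edgeSet ℚ) (Bs V) :=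
    IsScalarTower.of_algebraMap_eq fun a => ((aeval (R := ℚ) (de G)).commutes a).symm
  have : Algebra.FiniteType ℚ (Bs V) :=
    (Subalgebra.fg_iff_finiteType _).1 (Subalgebra.fg_def.2 ⟨_, Set.finite_range _, rfl⟩)
  have : Algebra.FiniteType (MvPolynomial G.edgeSet ℚ) (Bs V) :=
    Algebra.FiniteType.of_restrictScalars_finiteType ℚ _ _
  have hinj : Function.Injective (aeval (R := ℚ) (de G)) := by
    have h1 := indep G hG
    have h2 : (aeval (R := ℚ) fun e : G.edgeSet => Dl e.1) = (Bs V).val.comp (aeval (de G)) := by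
      rw [comp_aeval]; rfl
    rw [h2] at h1
    exact Function.Injective.of_comp (f := (Bs V).val) h1
  exact core (A := MvPolynomial G.edgeSet ℚ) (B := Bs V) hinj _ _
    ((Function.Injective.comp hp Subtype.val_injective).comp hinj) hfin

end Pool.Agent.H.MP_52d521_co
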